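/-
MP_4c8320_lc, Part T: the theory of refining equivalence relations with infinite splitting.  Definitions.
helper83, folder Pool/Agent/H83/TW.
-/
import Mathlib

namespace Pool.Agent.H83.TW

open FirstOrder FirstOrder.Language Cardinal

universe u v w

/-- relation symbols: one binary symbol `E n` for each natural number `n` -/
inductive Sym : ℕ → Type
  | E (n : ℕ) : Sym 2

/-- the language with the binary relation symbols `E n` -/
def LW : FirstOrder.Language.{0, 0} := ⟨fun _ => Empty, Sym⟩

/-- the symbol `E n` as a relation symbol of `LW` -/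
def eSym (n : ℕ) : LW.Relations 2 := Sym.E n

/-- refining equivalence relations `E 0 ⊇ E 1 ⊇ ...` on `M` with infinitely many `E 0` classes,
such that every class of `E n` contains infinitely many classes of `E (n + 1)` -/
structure RefEq {M : Type u} (E : ℕ → M → M → Prop) : Prop where
  equiv : ∀ n, Equivalence (E n)
  refine : ∀ n x y, E (n + 1) x y → E n x y
  split0 : ∀ s : Finset M, ∃ z, ∀ y ∈ s, ¬ E 0 z y
  split : ∀ n x, ∀ s : Finset M, ∃ z, E n x z ∧ ∀ y ∈ s, ¬ E (n + 1) z y

/-- `E (n + 1) x y → E n x y` -/
def axRefine (n : ℕ) : LW.Sentence :=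
  ((eSym (n + 1)).boundedFormula₂ (&0) (&1) ⟹ (eSym n).boundedFormula₂ (&0) (&1)).all.all

/-- for all `y_i`, `i < k`, there is `z` with `¬ E 0 z y_i` for all `i` -/
noncomputable def axSplit0 (k : ℕ) : LW.Sentence :=
  Formula.iAlls (Fin k)
    (Formula.iExs Unit
      (Formula.iInf fun i : Fin k =>
        ((eSym 0).formula₂ (Term.var (Sum.inr ())) (Term.var (Sum.inl (Sum.inr i)))).not))

/-- for all `x` and all `y_i`, `i < k`, there is `z` with `E n x z` and `¬ E (n + 1) z y_i` for all `i` -/
noncomputable def axSplit (n k : ℕ) : LW.Sentence :=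
  Formula.iAlls (Unit ⊕ Fin k)
    (Formula.iExs Unit
      ((eSym n).formula₂ (Term.var (Sum.inl (Sum.inr (Sum.inl ())))) (Term.var (Sum.inr ())) ⊓
        Formula.iInf fun i : Fin k =>
          ((eSym (n + 1)).formula₂ (Term.var (Sum.inr ()))
            (Term.var (Sum.inl (Sum.inr (Sum.inr i))))).not))

/-- the theory of refining equivalence relations with infinite splitting -/
noncomputable def TW : LW.Theory :=
  {φ | (∃ n, φ = (eSym n).reflexive ∨ φ = (eSym n).symmetric ∨ φ = (eSym n).transitive ∨
      φ = axRefine n ∨ φ = axSplit0 n) ∨ ∃ n k, φ = axSplit n k}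

/-- the number of complete `n`-types over `A` is at most `lam` for all models `M` of `T`,
all sets `A` of at most `lam` elements of `M` and all `n` -/
def StableIn {L : FirstOrder.Language.{u, v}} (T : L.Theory) (lam : Cardinal.{max u v w}) : Prop :=
  ∀ (M : Type (max u v w)) [L.Structure M] [Nonempty M] [M ⊨ T] (A : Set M) (n : ℕ),
    Cardinal.mk A ≤ lam →
      Cardinal.mk ((L[[A]].completeTheory M).CompleteType (Fin n)) ≤ lam

/-- `T` is stable: it is `lam`-stable for some infinite `lam` -/
def Stable {L : FirstOrder.Language.{u, v}} (T : L.Theory) : Prop :=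
  ∃ lam : Cardinal.{max u v w}, ℵ₀ ≤ lam ∧ StableIn.{u, v, w} T lam

/-- `T` is superstable: it is `lam`-stable for all sufficiently large `lam` -/
def Superstable {L : FirstOrder.Language.{u, v}} (T : L.Theory) : Prop :=
  ∃ mu : Cardinal.{max u v w}, ∀ lam : Cardinal.{max u v w}, mu ≤ lam → StableIn.{u, v, w} T lam

end Pool.Agent.H83.TW
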