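/-
MP_4c8320_lc, Part T: elimination of quantifiers for refining equivalence relations with infinite
splitting.  helper83.
-/
import Pool.Agent.H83.TW.Defs

namespace Pool.Agent.H83.TW

open FirstOrder FirstOrder.Language Cardinal

universe u v w

/-- the relation `E n` of a structure -/
def relE (M : Type u) [LW.Structure M] (n : ℕ) (x y : M) : Prop :=
  Structure.RelMap (eSym n) ![x, y]

/-- the index of a relation symbol -/
def symLev : ∀ {n : ℕ}, LW.Relations n → ℕ
  | _, Sym.E n => n

/-- the largest index of a relation symbol in a formula -/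
def lev {α : Type w} : ∀ {n : ℕ}, LW.BoundedFormula α n → ℕ
  | _, .falsum => 0
  | _, .equal _ _ => 0
  | _, .rel R _ => symLev R
  | _, .imp f g => max (lev f) (lev g)
  | _, .all f => lev f

/-- two tuples agree up to level `m` -/
def Agree {ι : Type w} {M : Type u} {N : Type v} (E : ℕ → M → M → Prop) (F : ℕ → N → N → Prop) (m : ℕ)
    (v : ι → M) (w : ι → N) : Prop :=
  ∀ i j, (v i = v j ↔ w i = w j) ∧ ∀ l ≤ m, (E l (v i) (v j) ↔ F l (w i) (w j))

theorem RefEq.mono {M : Type u} {E : ℕ → M → M → Prop} (h : RefEq E) {l m : ℕ} (hlm : l ≤ m) {x y : M}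
    (hE : E m x y) : E l x y := by
  induction hlm with
  | refl => exact hE
  | step _ ih => exact ih (h.refine _ _ _ hE)

/-- every class is infinite: one can avoid finitely many elements -/
theorem RefEq.avoid {M : Type u} {E : ℕ → M → M → Prop} (h : RefEq E) (m : ℕ) (x : M) (s : Finset M) :
    ∃ z, E m x z ∧ z ∉ s := by
  obtain ⟨z, hz, hs⟩ := h.split m x s
  exact ⟨z, hz, fun hzs => hs z hzs ((h.equiv _).refl z)⟩

/-- the extension property -/
theorem RefEq.extend {ι : Type w} [Finite ι] {M : Type u} {N : Type v} {E : ℕ → M → M → Prop}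
    {F : ℕ → N → N → Prop} (hE : RefEq E) (hF : RefEq F) {m : ℕ} {v : ι → M} {w : ι → N}
    (h : Agree E F m v w) (c : M) :
    ∃ d : N, ∀ i, (v i = c ↔ w i = d) ∧ ∀ l ≤ m, (E l (v i) c ↔ F l (w i) d) := by
  classical
  have := Fintype.ofFinite ι
  let s : Finset N := Finset.univ.image w
  have hs : ∀ i, w i ∈ s := fun i => Finset.mem_image_of_mem w (Finset.mem_univ i)
  by_cases h1 : ∃ i, v i = c
  · obtain ⟨i, rfl⟩ := h1
    exact ⟨w i, fun j => h j i⟩
  push Not at h1
  by_cases h0 : ∃ i, E 0 (v i) c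
  · -- the largest level at which `c` is equivalent to some `v i`
    let P : ℕ → Prop := fun l => ∃ i, E l (v i) c
    have hP0 : P 0 := h0
    have hPl := Nat.findGreatest_spec (P := P) (Nat.zero_le m) hP0
    set l := Nat.findGreatest P m with hl
    have hlm : l ≤ m := Nat.findGreatest_le m
    obtain ⟨i, hi⟩ := hPl
    rcases Nat.lt_or_ge l m with hlt | hge
    · have hno : ∀ j, ¬ E (l + 1) (v j) c := by
        intro j hj
        have : l + 1 ≤ l := by
          conv_rhs => rw [hl]
          exact Nat.le_findGreatest hlt ⟨j, hj⟩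
        omega
      obtain ⟨d, hd, hds⟩ := hF.split l (w i) s
      refine ⟨d, fun j => ⟨⟨fun h2 => absurd h2 (h1 j), fun h2 => ?_⟩, fun l' hl' => ?_⟩⟩
      · exact absurd ((hF.equiv _).refl d) (h2 ▸ hds (w j) (hs j))
      · rcases Nat.lt_or_ge l l' with h3 | h3
        · constructor
          · intro h4
            exact absurd (hE.mono h3 h4) (hno j)
          · intro h4
            exact absurd ((hF.equiv _).symm (hF.mono h3 h4)) (hds (w j) (hs j))
        · have hic : E l' (v i) c := hE.mono h3 hi
          have hid : F l' (w i) d := hF.mono h3 hd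
          constructor
          · intro h4
            have h5 : E l' (v j) (v i) := (hE.equiv _).trans h4 ((hE.equiv _).symm hic)
            exact (hF.equiv _).trans (((h j i).2 l' hl').1 h5) hid
          · intro h4
            have h5 : F l' (w j) (w i) := (hF.equiv _).trans h4 ((hF.equiv _).symm hid)
            exact (hE.equiv _).trans (((h j i).2 l' hl').2 h5) hic
    · have hlm' : l = m := le_antisymm hlm hge
      obtain ⟨d, hd, hds⟩ := hF.avoid l (w i) s
      refine ⟨d, fun j => ⟨⟨fun h2 => absurd h2 (h1 j), fun h2 => ?_⟩, fun l' hl' => ?_⟩⟩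
      · exact absurd (h2 ▸ hs j) hds
      · have hic : E l' (v i) c := hE.mono (hlm' ▸ hl') hi
        have hid : F l' (w i) d := hF.mono (hlm' ▸ hl') hd
        constructor
        · intro h4
          have h5 : E l' (v j) (v i) := (hE.equiv _).trans h4 ((hE.equiv _).symm hic)
          exact (hF.equiv _).trans (((h j i).2 l' hl').1 h5) hid
        · intro h4
          have h5 : F l' (w j) (w i) := (hF.equiv _).trans h4 ((hF.equiv _).symm hid)
          exact (hE.equiv _).trans (((h j i).2 l' hl').2 h5) hic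
  · push Not at h0
    obtain ⟨d, hd⟩ := hF.split0 s
    refine ⟨d, fun j => ⟨⟨fun h2 => absurd h2 (h1 j), fun h2 => ?_⟩, fun l' hl' => ?_⟩⟩
    · exact absurd ((hF.equiv _).refl d) (h2 ▸ hd (w j) (hs j))
    · constructor
      · intro h4
        exact absurd (hE.mono (Nat.zero_le _) h4) (h0 j)
      · intro h4
        exact absurd ((hF.equiv _).symm (hF.mono (Nat.zero_le _) h4)) (hd (w j) (hs j))

theorem Agree.symm {ι : Type w} {M : Type u} {N : Type v} {E : ℕ → M → M → Prop}
    {F : ℕ → N → N → Prop} {m : ℕ} {v : ι → M} {w : ι → N} (h : Agree E F m v w) : Agree F E m w v :=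
  fun i j => ⟨(h i j).1.symm, fun l hl => ((h i j).2 l hl).symm⟩

theorem Agree.mono {ι : Type w} {M : Type u} {N : Type v} {E : ℕ → M → M → Prop}
    {F : ℕ → N → N → Prop} {m m' : ℕ} (hm : m ≤ m') {v : ι → M} {w : ι → N}
    (h : Agree E F m' v w) : Agree E F m v w :=
  fun i j => ⟨(h i j).1, fun l hl => (h i j).2 l (hl.trans hm)⟩

/-- extension of an agreeing pair of tuples by one more element at the end -/
theorem Agree.snoc {α : Type w} {n : ℕ} {M : Type u} {N : Type v} {E : ℕ → M → M → Prop}
    {F : ℕ → N → N → Prop} (hE : RefEq E) (hF : RefEq F) {m : ℕ} {v : α → M} {xs : Fin n → M}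
    {w : α → N} {ys : Fin n → N}
    (h : Agree E F m (Sum.elim v xs) (Sum.elim w ys)) {c : M} {d : N}
    (hcd : ∀ i : α ⊕ Fin n, (Sum.elim v xs i = c ↔ Sum.elim w ys i = d) ∧
      ∀ l ≤ m, (E l (Sum.elim v xs i) c ↔ F l (Sum.elim w ys i) d)) :
    Agree E F m (Sum.elim v (Fin.snoc xs c)) (Sum.elim w (Fin.snoc ys d)) := by
  have key : ∀ i : α ⊕ Fin (n + 1),
      (∃ j : α ⊕ Fin n, Sum.elim v (Fin.snoc xs c : Fin (n + 1) → M) i = Sum.elim v xs j ∧
        Sum.elim w (Fin.snoc ys d : Fin (n + 1) → N) i = Sum.elim w ys j) ∨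
      (Sum.elim v (Fin.snoc xs c : Fin (n + 1) → M) i = c ∧
        Sum.elim w (Fin.snoc ys d : Fin (n + 1) → N) i = d) := by
    rintro (i | i)
    · exact Or.inl ⟨Sum.inl i, rfl, rfl⟩
    · refine Fin.lastCases ?_ (fun i => ?_) i
      · right
        simp
      · left
        exact ⟨Sum.inr i, by simp, by simp⟩
  intro i j
  rcases key i with ⟨i', hi1, hi2⟩ | ⟨hi1, hi2⟩ <;> rcases key j with ⟨j', hj1, hj2⟩ | ⟨hj1, hj2⟩ <;>
    rw [hi1, hi2, hj1, hj2]
  · exact h i' j'
  · exact hcd i'
  · refine ⟨⟨fun h' => ((hcd j').1.1 h'.symm).symm, fun h' => ((hcd j').1.2 h'.symm).symm⟩,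
      fun l hl => ⟨fun h' => ?_, fun h' => ?_⟩⟩
    · exact (hF.equiv l).symm (((hcd j').2 l hl).1 ((hE.equiv l).symm h'))
    · exact (hE.equiv l).symm (((hcd j').2 l hl).2 ((hF.equiv l).symm h'))
  · exact ⟨⟨fun _ => rfl, fun _ => rfl⟩,
      fun l _ => ⟨fun _ => (hF.equiv l).refl d, fun _ => (hE.equiv l).refl c⟩⟩

/-- a term of `LW` is a variable -/
theorem term_var {α : Type w} (t : LW.Term α) : ∃ x, t = Term.var x := by
  cases t with
  | var x => exact ⟨x, rfl⟩
  | func f _ => exact f.elim

/-- elimination of quantifiers, semantic form -/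
theorem realize_iff {α : Type w} [Finite α] {M : Type u} {N : Type v} [LW.Structure M]
    [LW.Structure N] (hM : RefEq (relE M)) (hN : RefEq (relE N)) {n : ℕ}
    (φ : LW.BoundedFormula α n) (m : ℕ) (hm : lev φ ≤ m) (v : α → M) (xs : Fin n → M) (w : α → N)
    (ys : Fin n → N) (h : Agree (relE M) (relE N) m (Sum.elim v xs) (Sum.elim w ys)) :
    φ.Realize v xs ↔ φ.Realize w ys := by
  induction φ with
  | falsum => exact Iff.rfl
  | equal t₁ t₂ =>
    obtain ⟨x, rfl⟩ := term_var t₁
    obtain ⟨y, rfl⟩ := term_var t₂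
    exact (h x y).1
  | rel R ts =>
    cases R with
    | E k =>
      obtain ⟨x, hx⟩ := term_var (ts 0)
      obtain ⟨y, hy⟩ := term_var (ts 1)
      have h2 := (h x y).2 k hm
      have e1 : (fun i => (ts i).realize (Sum.elim v xs)) = ![Sum.elim v xs x, Sum.elim v xs y] := by
        funext i
        refine Fin.cases ?_ (fun i => ?_) i
        · simp [hx]
        · rw [Fin.eq_zero i]
          change (ts 1).realize _ = _
          simp [hy]
      have e2 : (fun i => (ts i).realize (Sum.elim w ys)) = ![Sum.elim w ys x, Sum.elim w ys y] := by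
        funext i
        refine Fin.cases ?_ (fun i => ?_) i
        · simp [hx]
        · rw [Fin.eq_zero i]
          change (ts 1).realize _ = _
          simp [hy]
      change Structure.RelMap (eSym k) (fun i => (ts i).realize (Sum.elim v xs)) ↔
        Structure.RelMap (eSym k) (fun i => (ts i).realize (Sum.elim w ys))
      rw [e1, e2]
      exact h2
  | imp f g hf hg =>
    have h1 := hf ((le_max_left _ _).trans hm) xs ys h
    have h2 := hg ((le_max_right _ _).trans hm) xs ys h
    exact imp_congr h1 h2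
  | all f hf =>
    constructor
    · intro h1 d
      obtain ⟨c, hc⟩ := hN.extend hM h.symm d
      have h3 := Agree.snoc hN hM h.symm hc
      exact (hf hm _ _ h3.symm).1 (h1 c)
    · intro h1 c
      obtain ⟨d, hd⟩ := hM.extend hN h c
      have h3 := Agree.snoc hM hN h hd
      exact (hf hm _ _ h3).2 (h1 d)

end Pool.Agent.H83.TW
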