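/-
MP_4c8320_lc, Part T: models of the theory, the standard model, completeness.  helper83.
-/
import Pool.Agent.H83.TW.QE

namespace Pool.Agent.H83.TW

open FirstOrder FirstOrder.Language Cardinal

universe u v w

theorem realize_axRefine (M : Type u) [LW.Structure M] (n : ℕ) :
    M ⊨ axRefine n ↔ ∀ x y : M, relE M (n + 1) x y → relE M n x y := by
  unfold axRefine Sentence.Realize Formula.Realize relE
  simp only [BoundedFormula.realize_all, BoundedFormula.realize_imp, BoundedFormula.realize_rel₂]
  exact Iff.rfl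

theorem realize_axSplit0 (M : Type u) [LW.Structure M] (k : ℕ) :
    M ⊨ axSplit0 k ↔ ∀ y : Fin k → M, ∃ z : M, ∀ i, ¬ relE M 0 z (y i) := by
  unfold axSplit0 Sentence.Realize relE
  rw [Formula.realize_iAlls]
  refine forall_congr' fun y => ?_
  rw [Formula.realize_iExs]
  constructor
  · rintro ⟨z, hz⟩
    refine ⟨z (), fun i => ?_⟩
    rw [Formula.realize_iInf] at hz
    have := hz i
    rw [Formula.realize_not, Formula.realize_rel₂] at this
    exact this
  · rintro ⟨z, hz⟩
    refine ⟨fun _ => z, ?_⟩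
    rw [Formula.realize_iInf]
    intro i
    rw [Formula.realize_not, Formula.realize_rel₂]
    exact hz i

theorem realize_axSplit (M : Type u) [LW.Structure M] (n k : ℕ) :
    M ⊨ axSplit n k ↔ ∀ (x : M) (y : Fin k → M), ∃ z : M, relE M n x z ∧
      ∀ i, ¬ relE M (n + 1) z (y i) := by
  unfold axSplit Sentence.Realize relE
  rw [Formula.realize_iAlls]
  constructor
  · intro h x y
    have h1 := h (Sum.elim (fun _ => x) y)
    rw [Formula.realize_iExs] at h1
    obtain ⟨z, hz⟩ := h1
    rw [Formula.realize_inf, Formula.realize_rel₂, Formula.realize_iInf] at hz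
    refine ⟨z (), hz.1, fun i => ?_⟩
    have := hz.2 i
    rw [Formula.realize_not, Formula.realize_rel₂] at this
    exact this
  · intro h y
    obtain ⟨z, hz1, hz2⟩ := h (y (Sum.inl ())) (fun i => y (Sum.inr i))
    rw [Formula.realize_iExs]
    refine ⟨fun _ => z, ?_⟩
    rw [Formula.realize_inf, Formula.realize_rel₂, Formula.realize_iInf]
    refine ⟨hz1, fun i => ?_⟩
    rw [Formula.realize_not, Formula.realize_rel₂]
    exact hz2 i

/-- a structure is a model of the theory iff its relations are refining equivalence relations with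
infinite splitting -/
theorem model_iff (M : Type u) [LW.Structure M] : M ⊨ TW ↔ RefEq (relE M) := by
  rw [Theory.model_iff]
  constructor
  · intro h
    refine ⟨fun n => ⟨?_, ?_, ?_⟩, fun n => ?_, fun s => ?_, fun n x s => ?_⟩
    · have := h (eSym n).reflexive (Or.inl ⟨n, Or.inl rfl⟩)
      rw [Relations.realize_reflexive] at this
      exact fun x => this.refl x
    · have := h (eSym n).symmetric (Or.inl ⟨n, Or.inr (Or.inl rfl)⟩)
      rw [Relations.realize_symmetric] at this
      exact fun {x y} hxy => this.symm x y hxy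
    · have := h (eSym n).transitive (Or.inl ⟨n, Or.inr (Or.inr (Or.inl rfl))⟩)
      rw [Relations.realize_transitive] at this
      exact fun {x y z} hxy hyz => this.trans x y z hxy hyz
    · exact (realize_axRefine M n).1 (h _ (Or.inl ⟨n, Or.inr (Or.inr (Or.inr (Or.inl rfl)))⟩))
    · have h1 := (realize_axSplit0 M s.card).1
        (h _ (Or.inl ⟨s.card, Or.inr (Or.inr (Or.inr (Or.inr rfl)))⟩))
      obtain ⟨z, hz⟩ := h1 (fun i => (s.equivFin.symm i : M))
      refine ⟨z, fun y hy => ?_⟩
      have := hz (s.equivFin ⟨y, hy⟩)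
      simpa using this
    · have h1 := (realize_axSplit M n s.card).1 (h _ (Or.inr ⟨n, s.card, rfl⟩))
      obtain ⟨z, hz1, hz2⟩ := h1 x (fun i => (s.equivFin.symm i : M))
      refine ⟨z, hz1, fun y hy => ?_⟩
      have := hz2 (s.equivFin ⟨y, hy⟩)
      simpa using this
  · intro h φ hφ
    rcases hφ with ⟨n, rfl | rfl | rfl | rfl | rfl⟩ | ⟨n, k, rfl⟩
    · rw [Relations.realize_reflexive]
      exact ⟨fun x => (h.equiv n).refl x⟩
    · rw [Relations.realize_symmetric]
      exact ⟨fun x y hxy => (h.equiv n).symm hxy⟩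
    · rw [Relations.realize_transitive]
      exact ⟨fun x y z hxy hyz => (h.equiv n).trans hxy hyz⟩
    · exact (realize_axRefine M n).2 (h.refine n)
    · rw [realize_axSplit0]
      intro y
      classical
      obtain ⟨z, hz⟩ := h.split0 (Finset.univ.image y)
      exact ⟨z, fun i => hz _ (Finset.mem_image_of_mem y (Finset.mem_univ i))⟩
    · rw [realize_axSplit]
      intro x y
      classical
      obtain ⟨z, hz1, hz2⟩ := h.split n x (Finset.univ.image y)
      exact ⟨z, hz1, fun i => hz2 _ (Finset.mem_image_of_mem y (Finset.mem_univ i))⟩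

/-- the structure given by a family of relations -/
@[reducible] def mkStr {M : Type u} (E : ℕ → M → M → Prop) : LW.Structure M where
  funMap f _ := f.elim
  RelMap R xs := match R, xs with
    | Sym.E n, xs => E n (xs 0) (xs 1)

theorem relE_mkStr {M : Type u} (E : ℕ → M → M → Prop) (n : ℕ) (x y : M) :
    @relE M (mkStr E) n x y ↔ E n x y := Iff.rfl

/-- the standard model with branching `I` -/
def stdE (I : Type u) (n : ℕ) (x y : ℕ → I) : Prop := ∀ k ≤ n, x k = y k

theorem stdE_refEq (I : Type u) [Infinite I] : RefEq (stdE I) := by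
  classical
  have hz : ∀ (n : ℕ) (x : ℕ → I) (s : Finset (ℕ → I)), ∃ z : ℕ → I, (∀ k, k ≠ n → z k = x k) ∧
      ∀ y ∈ s, z n ≠ y n := by
    intro n x s
    obtain ⟨a, ha⟩ := Infinite.exists_notMem_finset (s.image fun y => y n)
    refine ⟨Function.update x n a, fun k hk => Function.update_of_ne hk _ _, fun y hy h => ?_⟩
    rw [Function.update_self] at h
    exact ha (h ▸ Finset.mem_image_of_mem _ hy)
  refine ⟨fun n => ⟨fun x k _ => rfl, fun h k hk => (h k hk).symm,
    fun h1 h2 k hk => (h1 k hk).trans (h2 k hk)⟩, fun n x y h k hk => h k (hk.trans (Nat.le_succ n)),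
    fun s => ?_, fun n x s => ?_⟩
  · have : Nonempty I := inferInstance
    obtain ⟨z, -, hz2⟩ := hz 0 (fun _ => Classical.arbitrary I) s
    exact ⟨z, fun y hy h => hz2 y hy (h 0 le_rfl)⟩
  · obtain ⟨z, hz1, hz2⟩ := hz (n + 1) x s
    exact ⟨z, fun k hk => (hz1 k (by omega)).symm, fun y hy h => hz2 y hy (h (n + 1) le_rfl)⟩

theorem satisfiable : TW.IsSatisfiable := by
  let _ : LW.Structure (ℕ → ℕ) := mkStr (stdE ℕ)
  have : (ℕ → ℕ) ⊨ TW := (model_iff (ℕ → ℕ)).2 (stdE_refEq ℕ)
  exact Theory.Model.isSatisfiable (ℕ → ℕ)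

theorem agree_empty {M : Type u} {N : Type v} (E : ℕ → M → M → Prop) (F : ℕ → N → N → Prop) (m : ℕ)
    (v : Empty → M) (xs : Fin 0 → M) (w : Empty → N) (ys : Fin 0 → N) :
    Agree E F m (Sum.elim v xs) (Sum.elim w ys) := by
  rintro (i | i)
  · exact i.elim
  · exact i.elim0

/-- any two models satisfy the same sentences -/
theorem sentence_iff {M : Type u} {N : Type v} [LW.Structure M] [LW.Structure N]
    (hM : RefEq (relE M)) (hN : RefEq (relE N)) (φ : LW.Sentence) : M ⊨ φ ↔ N ⊨ φ :=
  realize_iff hM hN φ _ le_rfl _ _ _ _ (agree_empty _ _ _ _ _ _ _)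

/-- the theory is complete -/
theorem isComplete : TW.IsComplete := by
  rw [Theory.IsComplete.isComplete_iff_models_elementarily_equivalent]
  refine ⟨satisfiable, fun M N => ?_⟩
  rw [elementarilyEquivalent_iff]
  exact sentence_iff ((model_iff M).1 M.is_model) ((model_iff N).1 N.is_model)

end Pool.Agent.H83.TW
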