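/-
MP_4c8320_lc, Part T: counting types.  The theory is `lam`-stable iff `lam ^ ℵ₀ = lam`.  helper83.
-/
import Pool.Agent.H83.TW.Mod

namespace Pool.Agent.H83.TW

open FirstOrder FirstOrder.Language Cardinal

universe u v w

/-- equality or the relation `E l` -/
def relO (M : Type u) [LW.Structure M] : Option ℕ → M → M → Prop
  | none => Eq
  | some l => relE M l

theorem relO_equiv {M : Type u} [LW.Structure M] (hM : RefEq (relE M)) (o : Option ℕ) :
    Equivalence (relO M o) := by
  cases o with
  | none => exact eq_equivalence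
  | some l => exact hM.equiv l

/-- elimination of quantifiers for formulas with any set of variables -/
theorem realize_iff_all {α : Type w} {M : Type u} {N : Type v} [LW.Structure M]
    [LW.Structure N] (hM : RefEq (relE M)) (hN : RefEq (relE N)) {n : ℕ}
    (φ : LW.BoundedFormula α n) (v : α → M) (xs : Fin n → M) (w : α → N) (ys : Fin n → N)
    (h : ∀ o i j, relO M o (Sum.elim v xs i) (Sum.elim v xs j) ↔
      relO N o (Sum.elim w ys i) (Sum.elim w ys j)) :
    φ.Realize v xs ↔ φ.Realize w ys := by
  classical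
  have hs : (φ.freeVarFinset : Set α) ⊆ (φ.freeVarFinset : Set α) := subset_rfl
  rw [← BoundedFormula.realize_restrictFreeVar' hs (v := v) (xs := xs),
    ← BoundedFormula.realize_restrictFreeVar' hs (v := w) (xs := ys)]
  have hf : Finite (φ.freeVarFinset : Set α) := (φ.freeVarFinset.finite_toSet).to_subtype
  refine realize_iff hM hN _ _ le_rfl _ _ _ _ ?_
  have key : ∀ i : (φ.freeVarFinset : Set α) ⊕ Fin n, ∃ i' : α ⊕ Fin n,
      Sum.elim (v ∘ Subtype.val) xs i = Sum.elim v xs i' ∧
      Sum.elim (w ∘ Subtype.val) ys i = Sum.elim w ys i' := by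
    rintro (i | i)
    · exact ⟨Sum.inl i, rfl, rfl⟩
    · exact ⟨Sum.inr i, rfl, rfl⟩
  intro i j
  obtain ⟨i', hi1, hi2⟩ := key i
  obtain ⟨j', hj1, hj2⟩ := key j
  rw [hi1, hi2, hj1, hj2]
  exact ⟨h none i' j', fun l _ => h (some l) i' j'⟩

section con

variable {M : Type u} [LW.Structure M] {A : Set M} {N : Type v} [LW[[A]].Structure N]
  [LW.Structure N] [(LW.lhomWithConstants A).IsExpansionOn N]

/-- truth of formulas about constants is the same in `M` and in a model of the theory of `M` -/
theorem realize_con_iff (hN : N ⊨ LW[[A]].completeTheory M) (ψ : LW.Formula A) :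
    ψ.Realize (fun a => (LW.con a : N)) ↔ ψ.Realize (fun a : A => (a : M)) := by
  rw [← Formula.realize_equivSentence N ψ, realize_iff_of_model_completeTheory M N,
    Formula.realize_equivSentence M ψ]
  simp

theorem relO_con_iff (hN : N ⊨ LW[[A]].completeTheory M) (o : Option ℕ) (a b : A) :
    relO N o (LW.con a : N) (LW.con b : N) ↔ relO M o (a : M) (b : M) := by
  cases o with
  | none =>
    have h := realize_con_iff hN ((Term.var a).equal (Term.var b) : LW.Formula A)
    rw [Formula.realize_equal, Formula.realize_equal] at h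
    exact h
  | some l =>
    have h := realize_con_iff hN ((eSym l).formula₂ (Term.var a) (Term.var b) : LW.Formula A)
    rw [Formula.realize_rel₂, Formula.realize_rel₂] at h
    exact h

theorem refEq_of_model (hM : RefEq (relE M)) (hN : N ⊨ LW[[A]].completeTheory M) :
    RefEq (relE N) := by
  rw [← model_iff, Theory.model_iff]
  intro φ hφ
  have h1 : M ⊨ φ := ((Theory.model_iff _).1 ((model_iff M).2 hM)) φ hφ
  rw [← LHom.realize_onSentence N (LW.lhomWithConstants A), realize_iff_of_model_completeTheory M N,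
    LHom.realize_onSentence M (LW.lhomWithConstants A)]
  exact h1

end con

/-- the types of two tuples agree if their quantifier-free diagrams over `A` agree -/
theorem typeOf_eq {M : Type u} [LW.Structure M] [Nonempty M] (hM : RefEq (relE M)) {A : Set M}
    {n : ℕ}
    {N : Type v} [LW[[A]].Structure N] [LW.Structure N] [(LW.lhomWithConstants A).IsExpansionOn N]
    [Nonempty N] [hN : N ⊨ LW[[A]].completeTheory M]
    {K : Type w} [LW[[A]].Structure K] [LW.Structure K] [(LW.lhomWithConstants A).IsExpansionOn K]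
    [Nonempty K] [hK : K ⊨ LW[[A]].completeTheory M] (x : Fin n → N) (y : Fin n → K)
    (h1 : ∀ o i j, relO N o (x i) (x j) ↔ relO K o (y i) (y j))
    (h2 : ∀ o i (a : A), relO N o (x i) (LW.con a : N) ↔ relO K o (y i) (LW.con a : K)) :
    (LW[[A]].completeTheory M).typeOf x = (LW[[A]].completeTheory M).typeOf y := by
  have hN' := refEq_of_model hM hN
  have hK' := refEq_of_model hM hK
  refine SetLike.ext fun φ => ?_
  rw [Theory.CompleteType.mem_typeOf, Theory.CompleteType.mem_typeOf]
  unfold Formula.Realize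
  rw [← BoundedFormula.realize_constantsVarsEquiv, ← BoundedFormula.realize_constantsVarsEquiv]
  refine realize_iff_all hN' hK' _ _ _ _ _ ?_
  have hc : ∀ o (a b : A), relO N o (LW.con a : N) (LW.con b : N) ↔
      relO K o (LW.con a : K) (LW.con b : K) := fun o a b =>
    (relO_con_iff hN o a b).trans (relO_con_iff hK o a b).symm
  intro o i j
  rcases i with (i | i) | i
  · rcases j with (j | j) | j
    · exact hc o i j
    · exact ⟨fun h => (relO_equiv hK' o).symm ((h2 o j i).1 ((relO_equiv hN' o).symm h)),
        fun h => (relO_equiv hN' o).symm ((h2 o j i).2 ((relO_equiv hK' o).symm h))⟩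
    · exact j.elim0
  · rcases j with (j | j) | j
    · exact h2 o i j
    · exact h1 o i j
    · exact j.elim0
  · exact i.elim0

/-- the data of a tuple over `A`: for each entry and each relation an element of `A` in its class
if there is one, and the truth values of the relations between the entries -/
theorem stableIn {lam : Cardinal.{w}} (h0 : ℵ₀ ≤ lam) (h : lam ^ ℵ₀ ≤ lam) :
    StableIn.{0, 0, w} TW lam := by
  classical
  intro M _ _ _ A n hA
  have hM : RefEq (relE M) := (model_iff M).1 inferInstance
  -- a set of size `lam`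
  obtain ⟨X, hX⟩ : ∃ X : Type w, Cardinal.mk X = lam := ⟨lam.out, Cardinal.mk_out lam⟩
  have hXi : Infinite X := Cardinal.infinite_iff.2 (hX ▸ h0)
  have hO : Cardinal.mk (Option A) ≤ Cardinal.mk X := by
    rw [Cardinal.mk_option, hX]
    exact Cardinal.add_le_of_le h0 hA (one_le_aleph0.trans h0)
  obtain ⟨e1⟩ := hO
  obtain ⟨x0, x1, h01⟩ := exists_pair_ne X
  let e2 : Prop → X := fun P => if P then x0 else x1
  have he2 : ∀ P Q : Prop, e2 P = e2 Q → (P ↔ Q) := by
    intro P Q hPQ
    by_cases hP : P <;> by_cases hQ : Q <;> simp [e2, hP, hQ, h01, h01.symm] at hPQ ⊢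
  -- realizations
  have hreal := fun p : (LW[[A]].completeTheory M).CompleteType (Fin n) =>
    Theory.exists_modelType_is_realized_in (LW[[A]].completeTheory M) p
  choose N hN using hreal
  choose x hx using hN
  let str : ∀ p, LW.Structure (N p) := fun p => (LW.lhomWithConstants A).reduct (N p)
  have hexp : ∀ p, (LW.lhomWithConstants A).IsExpansionOn (N p) := fun p =>
    LHom.isExpansionOn_reduct _ _
  -- the data
  let d1 : ∀ p : (LW[[A]].completeTheory M).CompleteType (Fin n), Fin n × Option ℕ → Option A :=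
    fun p io => if hex : ∃ a : A, relO (N p) io.2 (x p io.1) (LW.con a : N p) then
      some hex.choose else none
  let D : (LW[[A]].completeTheory M).CompleteType (Fin n) →
      ((Fin n × Option ℕ) ⊕ (Fin n × Fin n × Option ℕ) → X) := fun p =>
    Sum.elim (fun io => e1 (d1 p io))
      (fun ijo => e2 (relO (N p) ijo.2.2 (x p ijo.1) (x p ijo.2.1)))
  have hD : Function.Injective D := by
    intro p q hpq
    have hd1 : ∀ io, d1 p io = d1 q io := fun io =>
      e1.injective (congrFun hpq (Sum.inl io))
    have hd2 : ∀ o i j, relO (N p) o (x p i) (x p j) ↔ relO (N q) o (x q i) (x q j) := by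
      intro o i j
      exact he2 _ _ (congrFun hpq (Sum.inr (i, j, o)))
    have hNp : (N p) ⊨ LW[[A]].completeTheory M := inferInstance
    have hNq : (N q) ⊨ LW[[A]].completeTheory M := inferInstance
    have hRp := refEq_of_model hM hNp
    have hRq := refEq_of_model hM hNq
    have hd3 : ∀ p' q' : (LW[[A]].completeTheory M).CompleteType (Fin n),
        (∀ io, d1 p' io = d1 q' io) → ∀ o i (a : A), relO (N p') o (x p' i) (LW.con a : N p') →
        relO (N q') o (x q' i) (LW.con a : N q') := by
      intro p' q' hd o i a ha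
      have hNp : (N p') ⊨ LW[[A]].completeTheory M := inferInstance
      have hNq : (N q') ⊨ LW[[A]].completeTheory M := inferInstance
      have hRp := refEq_of_model hM hNp
      have hRq := refEq_of_model hM hNq
      have hex : ∃ a : A, relO (N p') o (x p' i) (LW.con a : N p') := ⟨a, ha⟩
      have e3 : d1 p' (i, o) = some hex.choose := dif_pos hex
      have e4 := hex.choose_spec
      set b := hex.choose with hb
      by_cases hex' : ∃ a : A, relO (N q') o (x q' i) (LW.con a : N q')
      · have e5 : d1 q' (i, o) = some hex'.choose := dif_pos hex'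
        have e6 := hex'.choose_spec
        have e7 : hex'.choose = b := by
          have := hd (i, o)
          rw [e3, e5] at this
          exact (Option.some.inj this).symm
        rw [e7] at e6
        have e8 : relO (N p') o (LW.con b : N p') (LW.con a : N p') :=
          (relO_equiv hRp o).trans ((relO_equiv hRp o).symm e4) ha
        have e9 : relO (N q') o (LW.con b : N q') (LW.con a : N q') :=
          (relO_con_iff hNq o b a).2 ((relO_con_iff hNp o b a).1 e8)
        exact (relO_equiv hRq o).trans e6 e9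
      · have e5 : d1 q' (i, o) = none := dif_neg hex'
        have := hd (i, o)
        rw [e3, e5] at this
        exact absurd this (by simp)
    rw [← hx p, ← hx q]
    exact typeOf_eq hM (x p) (x q) hd2 fun o i a =>
      ⟨hd3 p q hd1 o i a, hd3 q p (fun io => (hd1 io).symm) o i a⟩
  calc Cardinal.mk ((LW[[A]].completeTheory M).CompleteType (Fin n))
      ≤ Cardinal.mk ((Fin n × Option ℕ) ⊕ (Fin n × Fin n × Option ℕ) → X) :=
        Cardinal.mk_le_of_injective hD
    _ ≤ lam ^ ℵ₀ := by
        rw [Cardinal.mk_arrow, hX, Cardinal.lift_uzero]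
        refine Cardinal.power_le_power_left (ne_of_gt (aleph0_pos.trans_le h0)) ?_
        rw [Cardinal.lift_le_aleph0]
        exact Cardinal.mk_le_aleph0
    _ ≤ lam := h

/-- many types: for `lam < lam ^ ℵ₀` there is a model with more than `lam` types over a set of at
most `lam` elements -/
theorem many_types {lam : Cardinal.{w}} (h0 : ℵ₀ ≤ lam) :
    ∃ (M : Type w) (_ : LW.Structure M) (_ : Nonempty M) (A : Set M), M ⊨ TW ∧
      Cardinal.mk A ≤ lam ∧
      lam ^ ℵ₀ ≤ Cardinal.mk ((LW[[A]].completeTheory M).CompleteType (Fin 1)) := by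
  classical
  obtain ⟨I, hI⟩ : ∃ X : Type w, Cardinal.mk X = lam := ⟨lam.out, Cardinal.mk_out lam⟩
  have hIi : Infinite I := Cardinal.infinite_iff.2 (hI ▸ h0)
  obtain ⟨i0⟩ : Nonempty I := inferInstance
  let str : LW.Structure (ℕ → I) := mkStr (stdE I)
  let A : Set (ℕ → I) := Set.range fun (l : List I) (k : ℕ) => l.getD k i0
  refine ⟨ℕ → I, str, ⟨fun _ => i0⟩, A, (model_iff _).2 (stdE_refEq I), ?_, ?_⟩
  · refine Cardinal.mk_range_le.trans ?_
    rw [Cardinal.mk_list_eq_mk, hI]
  · have hne : Nonempty (ℕ → I) := ⟨fun _ => i0⟩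
    have hinj : Function.Injective fun η : ℕ → I =>
        (LW[[A]].completeTheory (ℕ → I)).typeOf (fun _ : Fin 1 => η) := by
      intro η ζ hηζ
      funext k
      let l : List I := (List.range (k + 1)).map η
      let a : A := ⟨fun j => l.getD j i0, ⟨l, rfl⟩⟩
      have ha : ∀ j ≤ k, (a : ℕ → I) j = η j := by
        intro j hj
        show l.getD j i0 = η j
        rw [List.getD_eq_getElem?_getD, List.getElem?_map, List.getElem?_range (by omega)]
        rfl
      let ψ : LW.BoundedFormula (A ⊕ Fin 1) 0 :=
        (eSym k).formula₂ (Term.var (Sum.inr 0)) (Term.var (Sum.inl a))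
      let φ : LW[[A]].Formula (Fin 1) := BoundedFormula.constantsVarsEquiv.symm ψ
      have hφ : ∀ θ : ℕ → I, φ.Realize (fun _ : Fin 1 => θ) ↔ stdE I k θ a := by
        intro θ
        unfold Formula.Realize
        rw [← BoundedFormula.realize_constantsVarsEquiv, Equiv.apply_symm_apply]
        have h2 : ψ.Realize (Sum.elim (fun a : A => ((LW.con a : LW[[A]].Constants) : ℕ → I))
            (fun _ : Fin 1 => θ)) (default : Fin 0 → ℕ → I) ↔ _ :=
          Formula.realize_rel₂
        rw [h2]
        exact Iff.rfl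
      have h3 : Formula.equivSentence φ ∈
          (LW[[A]].completeTheory (ℕ → I)).typeOf (fun _ : Fin 1 => η) :=
        Theory.CompleteType.formula_mem_typeOf.2 ((hφ η).2 fun j hj => (ha j hj).symm)
      have hηζ' : (LW[[A]].completeTheory (ℕ → I)).typeOf (fun _ : Fin 1 => η) =
        (LW[[A]].completeTheory (ℕ → I)).typeOf (fun _ : Fin 1 => ζ) := hηζ
      rw [hηζ'] at h3
      have h4 := (hφ ζ).1 (Theory.CompleteType.formula_mem_typeOf.1 h3)
      have h5 := h4 k le_rfl
      rw [ha k le_rfl] at h5
      exact h5.symm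
    have h6 := Cardinal.mk_le_of_injective hinj
    have h7 : Cardinal.mk (ℕ → I) = lam ^ ℵ₀ := by
      rw [Cardinal.mk_arrow, hI, Cardinal.lift_uzero, Cardinal.mk_nat, Cardinal.lift_aleph0]
    rwa [h7] at h6

/-- the theory is stable exactly in the infinite cardinals with `lam ^ ℵ₀ = lam` -/
theorem stableIn_iff {lam : Cardinal.{w}} (h0 : ℵ₀ ≤ lam) :
    StableIn.{0, 0, w} TW lam ↔ lam ^ ℵ₀ = lam := by
  constructor
  · intro h
    obtain ⟨M, hs, hne, A, hM, hA, hc⟩ := many_types h0
    exact le_antisymm (hc.trans (h M A 1 hA)) (Cardinal.self_le_power lam one_le_aleph0)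
  · intro h
    exact stableIn h0 h.le

/-- above each cardinal there is one with `lam < lam ^ ℵ₀` -/
theorem exists_lt_power (mu : Cardinal.{w}) :
    ∃ lam : Cardinal.{w}, mu ≤ lam ∧ ℵ₀ ≤ lam ∧ lam < lam ^ ℵ₀ := by
  let f : ℕ → Cardinal.{w} := fun n => (Order.succ)^[n] (max mu ℵ₀)
  have hf : ∀ n, f n < f (n + 1) := by
    intro n
    show _ < (Order.succ)^[n + 1] (max mu ℵ₀)
    rw [Function.iterate_succ_apply']
    exact Order.lt_succ _
  have hs : ∀ n, f n ≤ Cardinal.sum f := fun n => Cardinal.le_sum f n
  have h1 : Cardinal.sum f < Cardinal.prod fun n => f (n + 1) := Cardinal.sum_lt_prod _ _ hf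
  have h2 : (Cardinal.prod fun n => f (n + 1)) ≤ Cardinal.prod fun _ : ℕ => Cardinal.sum f :=
    Cardinal.prod_le_prod _ _ fun n => hs (n + 1)
  have h3 : (Cardinal.prod fun _ : ℕ => Cardinal.sum f) = (Cardinal.sum f) ^ ℵ₀ := by
    rw [Cardinal.prod_const, Cardinal.mk_nat, Cardinal.lift_aleph0, Cardinal.lift_uzero]
  have h4 : max mu ℵ₀ ≤ Cardinal.sum f := hs 0
  exact ⟨Cardinal.sum f, (le_max_left _ _).trans h4, (le_max_right _ _).trans h4,
    h1.trans_le (h2.trans h3.le)⟩

theorem stable : Stable.{0, 0, w} TW := by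
  refine ⟨2 ^ ℵ₀, (Cardinal.cantor _).le, (stableIn_iff (Cardinal.cantor _).le).2 ?_⟩
  rw [← Cardinal.power_mul, Cardinal.aleph0_mul_aleph0]

theorem not_superstable : ¬ Superstable.{0, 0, w} TW := by
  rintro ⟨mu, h⟩
  obtain ⟨lam, h1, h2, h3⟩ := exists_lt_power mu
  exact h3.ne' ((stableIn_iff h2).1 (h lam h1))

end Pool.Agent.H83.TW
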